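import Pool.Agent.Q227.DB.Defs

namespace Pool.Agent.Q227.DB

open Module

variable {P L : Type} {I : P → L → Prop} {V : Type} [AddCommGroup V] [Module ℝ V]

/-- If two distinct points of a line lie in `W`, so does the line. -/
theorem Realization.ln_le (R : Realization I V) {W : AffineSubspace ℝ V} {p p' : P} {l : L}
    (hne : p ≠ p') (h : I p l) (h' : I p' l) (hW : R.pt p ∈ W) (hW' : R.pt p' ∈ W) :
    R.ln l ≤ W := by
  intro z hz
  have hx : R.pt p ∈ R.ln l := (R.incidence p l).2 h
  have hy : R.pt p' ∈ R.ln l := (R.incidence p' l).2 h'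
  have hxy : R.pt p ≠ R.pt p' := fun e => hne (R.pt_injective e)
  have hd : R.pt p' - R.pt p ∈ (R.ln l).direction := AffineSubspace.vsub_mem_direction hy hx
  have hzd : z - R.pt p ∈ (R.ln l).direction := AffineSubspace.vsub_mem_direction hz hx
  have hne0 : (⟨R.pt p' - R.pt p, hd⟩ : (R.ln l).direction) ≠ 0 := by
    intro e
    have := congrArg Subtype.val e
    simp only [Submodule.coe_zero] at this
    exact hxy (sub_eq_zero.1 this).symm
  obtain ⟨c, hc⟩ := (finrank_eq_one_iff_of_nonzero' _ hne0).1 (R.ln_finrank l) ⟨_, hzd⟩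
  have hc' : c • (R.pt p' - R.pt p) = z - R.pt p := congrArg Subtype.val hc
  have hWd : R.pt p' - R.pt p ∈ W.direction := AffineSubspace.vsub_mem_direction hW' hW
  have : z = (z - R.pt p) +ᵥ R.pt p := by simp
  rw [this, ← hc']
  exact AffineSubspace.vadd_mem_of_mem_direction (W.direction.smul_mem c hWd) hW

theorem Realization.pt_mem (R : Realization I V) {W : AffineSubspace ℝ V} {p p' q : P} {l : L}
    (hne : p ≠ p') (h : I p l) (h' : I p' l) (hW : R.pt p ∈ W) (hW' : R.pt p' ∈ W)
    (hq : I q l) : R.pt q ∈ W :=
  R.ln_le hne h h' hW hW' ((R.incidence q l).2 hq)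

/-- Image of a realization under a linear equivalence. -/
noncomputable def Realization.map {V' : Type} [AddCommGroup V'] [Module ℝ V']
    (R : Realization I V) (e : V ≃ₗ[ℝ] V') : Realization I V' where
  pt := fun p => e (R.pt p)
  ln := fun l => (R.ln l).map (e.toLinearMap.toAffineMap)
  pt_injective := e.injective.comp R.pt_injective
  ln_injective := by
    intro l l' h
    apply R.ln_injective
    have hinj : Function.Injective (e.toLinearMap.toAffineMap : V → V') := e.injective
    apply SetLike.coe_injective
    have h2 := congrArg (fun A : AffineSubspace ℝ V' => (A : Set V')) h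
    simp only [AffineSubspace.coe_map] at h2
    exact hinj.image_injective h2
  ln_nonempty := fun l => by
    rw [AffineSubspace.coe_map]
    exact (R.ln_nonempty l).image _
  ln_finrank := fun l => by
    rw [AffineSubspace.map_direction, LinearMap.toAffineMap_linear]
    rw [← R.ln_finrank l]
    exact LinearEquiv.finrank_map_eq e _
  incidence := fun p l => by
    rw [← R.incidence p l]
    constructor
    · rintro ⟨x, hx, hxe⟩
      have : x = R.pt p := e.injective hxe
      rw [← this]; exact hx
    · intro h
      exact ⟨R.pt p, h, rfl⟩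

theorem Realization.finrank_map {V' : Type} [AddCommGroup V'] [Module ℝ V']
    (R : Realization I V) (e : V ≃ₗ[ℝ] V') :
    finrank ℝ (affineSpan ℝ (Set.range (R.map e).pt)).direction =
      finrank ℝ (affineSpan ℝ (Set.range R.pt)).direction := by
  have h1 : Set.range (R.map e).pt = (e.toLinearMap.toAffineMap : V → V') '' Set.range R.pt := by
    ext y
    constructor
    · rintro ⟨p, rfl⟩
      exact ⟨_, ⟨p, rfl⟩, rfl⟩
    · rintro ⟨_, ⟨p, rfl⟩, rfl⟩
      exact ⟨p, rfl⟩
  rw [h1, ← AffineSubspace.map_span, AffineSubspace.map_direction, LinearMap.toAffineMap_linear]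
  exact LinearEquiv.finrank_map_eq e _

theorem mem_dimensions [FiniteDimensional ℝ V] (R : Realization I V) :
    finrank ℝ (affineSpan ℝ (Set.range R.pt)).direction ∈ dimensions I := by
  have e : V ≃ₗ[ℝ] EuclideanSpace ℝ (Fin (finrank ℝ V)) :=
    LinearEquiv.ofFinrankEq _ _ (by simp)
  exact ⟨finrank ℝ V, R.map e, R.finrank_map e⟩

/-- Upper bound by a percolating set of seeds. -/
theorem finrank_le_of_seeds (R : Realization I V) {ι : Type} [Fintype ι] (s : ι → P) {n : ℕ}
    (hn : Fintype.card ι = n + 1)
    (h : ∀ p, R.pt p ∈ affineSpan ℝ (Set.range fun i => R.pt (s i))) :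
    finrank ℝ (affineSpan ℝ (Set.range R.pt)).direction ≤ n := by
  have h1 : affineSpan ℝ (Set.range R.pt) ≤ affineSpan ℝ (Set.range fun i => R.pt (s i)) := by
    rw [affineSpan_le]
    rintro _ ⟨p, rfl⟩
    exact h p
  have h2 := AffineSubspace.direction_le h1
  have h3 := finrank_vectorSpan_range_le ℝ (fun i => R.pt (s i)) hn
  rw [← direction_affineSpan] at h3
  have hfin : FiniteDimensional ℝ (affineSpan ℝ (Set.range fun i => R.pt (s i))).direction := by
    rw [direction_affineSpan]
    exact finiteDimensional_vectorSpan_range ℝ _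
  exact (Submodule.finrank_mono h2).trans h3

/-- Lower bound by affinely independent points. -/
theorem le_finrank_of_indep [FiniteDimensional ℝ V] (R : Realization I V) {ι : Type} [Fintype ι]
    (s : ι → P) {n : ℕ} (hn : Fintype.card ι = n + 1)
    (h : AffineIndependent ℝ fun i => R.pt (s i)) :
    n ≤ finrank ℝ (affineSpan ℝ (Set.range R.pt)).direction := by
  have h3 := h.finrank_vectorSpan hn
  rw [← direction_affineSpan] at h3
  rw [← h3]
  refine Submodule.finrank_mono (AffineSubspace.direction_le (affineSpan_mono ℝ ?_))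
  rintro _ ⟨i, rfl⟩
  exact ⟨s i, rfl⟩

/-- A realization of `I` from an assignment of points and pairs of points spanning the lines. -/
noncomputable def Realization.ofPair (pt : P → V) (hpt : Function.Injective pt) (a b : L → V)
    (hab : ∀ l, a l ≠ b l) (hinc : ∀ p l, pt p ∈ line[ℝ, a l, b l] ↔ I p l)
    (hL : ∀ l l', (∀ p, I p l ↔ I p l') → l = l') : Realization I V where
  pt := pt
  ln := fun l => line[ℝ, a l, b l]
  pt_injective := hpt
  ln_injective := by
    intro l l' h
    apply hL
    intro p
    rw [← hinc, ← hinc]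
    have h' : line[ℝ, a l, b l] = line[ℝ, a l', b l'] := h
    rw [h']
  ln_nonempty := fun l => ⟨a l, left_mem_affineSpan_pair ℝ _ _⟩
  ln_finrank := fun l => by
    rw [direction_affineSpan, vectorSpan_pair]
    exact finrank_span_singleton (by
      intro h
      rw [vsub_eq_sub, sub_eq_zero] at h
      exact hab l h)
  incidence := hinc

end Pool.Agent.Q227.DB
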