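import Mathlib

/-!
# Configurations, their duals, geometric realizations and dimension
-/

namespace Pool.Agent.Q227.DB

/-- The incidence relation `I` of a finite set `P` of points and a finite set `L` of lines is a
configuration with `q` lines through every point and `k` points on every line: two distinct points
share at most one line. It is the configuration `(p_q, n_k)` with `p = |P|`, `n = |L|`. -/
structure IsConfiguration {P L : Type} (I : P → L → Prop) (q k : ℕ) : Prop where
  finite_points : Finite P
  finite_lines : Finite L
  two_le_q : 2 ≤ q
  two_le_k : 2 ≤ k
  card_lines_through : ∀ p, {l | I p l}.ncard = q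
  card_points_on : ∀ l, {p | I p l}.ncard = k
  linear : ∀ p p' l l', p ≠ p' → I p l → I p' l → I p l' → I p' l' → l = l'

/-- A balanced configuration `(n_k)`: as many lines as points. -/
def IsBalanced {P L : Type} (I : P → L → Prop) (k : ℕ) : Prop :=
  IsConfiguration I k k ∧ Nat.card P = Nat.card L

/-- The dual: points and lines exchanged. -/
def dual {P L : Type} (I : P → L → Prop) : L → P → Prop := fun l p => I p l

/-- A geometric realization in the real vector space `V` (used for `V = ℝ^m`): the points and the
lines go injectively to points and straight lines (one-dimensional affine subspaces), and a point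
lies on a line if and only if they are incident. -/
structure Realization {P L : Type} (I : P → L → Prop) (V : Type) [AddCommGroup V] [Module ℝ V] where
  pt : P → V
  ln : L → AffineSubspace ℝ V
  pt_injective : Function.Injective pt
  ln_injective : Function.Injective ln
  ln_nonempty : ∀ l, (ln l : Set V).Nonempty
  ln_finrank : ∀ l, Module.finrank ℝ (ln l).direction = 1
  incidence : ∀ p l, pt p ∈ ln l ↔ I p l

/-- The dimensions of the affine hulls of the geometric realizations in Euclidean spaces. -/
def dimensions {P L : Type} (I : P → L → Prop) : Set ℕ :=
  {d | ∃ (m : ℕ) (R : Realization I (EuclideanSpace ℝ (Fin m))),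
    Module.finrank ℝ (affineSpan ℝ (Set.range R.pt)).direction = d}

/-- `I` has a geometric realization, and `dim I = d`: the largest dimension of the affine hull of
a realization is `d`. -/
def HasDim {P L : Type} (I : P → L → Prop) (d : ℕ) : Prop := IsGreatest (dimensions I) d

end Pool.Agent.Q227.DB
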