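import Pool.Agent.Q227.DB.Grid

namespace Pool.Agent.Q227.DB

open Module Function

variable {k : ℕ} [NeZero k]

/-- another direction -/
def oth (hk : 2 ≤ k) (j : Fin k) : Fin k := if j = 0 then one' hk else 0

theorem oth_ne (hk : 2 ≤ k) (j : Fin k) : oth hk j ≠ j := by
  unfold oth
  by_cases h : j = 0
  · rw [if_pos h, h]; exact one'_ne hk
  · rw [if_neg h]; exact fun e => h e.symm

/-- index of the seeds -/
abbrev SI (k : ℕ) [NeZero k] : Type := Fin 2 ⊕ {x : Fin k × Fin k // x.2 ≠ 0}

/-- the seeds -/
def seed (hk : 2 ≤ k) : SI k → GrL k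
  | Sum.inl b => gln (if b = 0 then 0 else one' hk) 0
  | Sum.inr x => gln (oth hk x.1.1) (update 0 x.1.1 x.1.2)

theorem card_SI : Fintype.card (SI k) = (k ^ 2 - k + 1) + 1 := by
  have h1 : Fintype.card {x : Fin k × Fin k // x.2 ≠ 0} = k * (k - 1) := by
    have e : {x : Fin k × Fin k // x.2 ≠ 0} ≃ Fin k × {a : Fin k // a ≠ 0} :=
      { toFun := fun x => (x.1.1, ⟨x.1.2, x.2⟩)
        invFun := fun y => ⟨(y.1, y.2.1), y.2.2⟩
        left_inv := fun _ => rfl
        right_inv := fun _ => rfl }
    rw [Fintype.card_congr e, Fintype.card_prod, Fintype.card_fin]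
    congr 1
    rw [Fintype.card_subtype_compl, Fintype.card_fin]
    simp
  rw [Fintype.card_sum, Fintype.card_fin, h1]
  have h2 : k * (k - 1) = k ^ 2 - k := by rw [Nat.mul_sub, mul_one, sq]
  rw [h2]; ring

variable {V : Type} [AddCommGroup V] [Module ℝ V]

theorem gln_ne {i i' : Fin k} (h : i ≠ i') (v v' : GrP k) : gln i v ≠ gln i' v' :=
  fun e => h (gln_eq_gln e).1

theorem dual_gln (i : Fin k) (v : GrP k) : dual (GrI k) (gln i v) v := by
  unfold dual
  rw [GrI_gln]; intro j _; rfl

/-- If two points of the line `v` are in `W` then all are. -/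
theorem all_of_two (R : Realization (dual (GrI k)) V) {W : AffineSubspace ℝ V} {v : GrP k}
    {i i' : Fin k} (h : i ≠ i') (hi : R.pt (gln i v) ∈ W) (hi' : R.pt (gln i' v) ∈ W) (j : Fin k) :
    R.pt (gln j v) ∈ W :=
  R.pt_mem (gln_ne h v v) (dual_gln i v) (dual_gln i' v) hi hi' (dual_gln j v)

theorem dual_seeds (hk : 2 ≤ k) (R : Realization (dual (GrI k)) V) (l : GrL k) :
    R.pt l ∈ affineSpan ℝ (Set.range fun x => R.pt (seed hk x)) := by
  set W := affineSpan ℝ (Set.range fun x => R.pt (seed hk x)) with hW
  have hseed : ∀ x, R.pt (seed hk x) ∈ W := fun x => subset_affineSpan ℝ _ ⟨x, rfl⟩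
  have h00 : R.pt (gln 0 0) ∈ W := by
    have := hseed (Sum.inl 0)
    simpa [seed] using this
  have h01 : R.pt (gln (one' hk) 0) ∈ W := by
    have := hseed (Sum.inl 1)
    simpa [seed] using this
  have h0 : ∀ j, R.pt (gln j (0 : GrP k)) ∈ W :=
    all_of_two R (one'_ne hk).symm h00 h01
  have main : ∀ n : ℕ, ∀ v : GrP k, (Finset.univ.filter fun i => v i ≠ 0).card = n →
      ∀ i, R.pt (gln i v) ∈ W := by
    intro n
    induction n with
    | zero =>
      intro v hv
      have : v = 0 := by
        funext i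
        by_contra h
        rw [Finset.card_eq_zero] at hv
        have hi : i ∈ Finset.univ.filter fun i => v i ≠ 0 := by simpa using h
        rw [hv] at hi
        simp at hi
      rw [this]; exact h0
    | succ n ih =>
      intro v hv
      have hlow : ∀ j, v j ≠ 0 → R.pt (gln j v) ∈ W := by
        intro j hj
        have h1 : gln j v = gln j (update v j 0) :=
          gln_congr fun l hl => by rw [update_of_ne hl]
        rw [h1]
        apply ih
        have : (Finset.univ.filter fun l => (update v j 0) l ≠ 0) =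
            (Finset.univ.filter fun l => v l ≠ 0).erase j := by
          ext l
          simp only [Finset.mem_filter, Finset.mem_univ, true_and, Finset.mem_erase]
          by_cases hl : l = j
          · subst hl; simp
          · rw [update_of_ne hl]; simp [hl]
        rw [this, Finset.card_erase_of_mem (by simpa using hj), hv]
        rfl
      obtain ⟨j, hj⟩ : (Finset.univ.filter fun i => v i ≠ 0).Nonempty := by
        rw [← Finset.card_pos]; omega
      have hj' : v j ≠ 0 := by simpa using hj
      by_cases h2 : ∃ l, l ≠ j ∧ v l ≠ 0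
      · obtain ⟨l, hlj, hl⟩ := h2
        exact all_of_two R hlj (hlow l hl) (hlow j hj')
      · push Not at h2
        have hv1 : v = update (0 : GrP k) j (v j) := by
          funext l
          by_cases hl : l = j
          · rw [hl, update_self]
          · rw [update_of_ne hl, h2 l hl]; rfl
        have hs : R.pt (gln (oth hk j) v) ∈ W := by
          have := hseed (Sum.inr ⟨(j, v j), hj'⟩)
          simp only [seed] at this
          rwa [← hv1] at this
        exact all_of_two R (oth_ne hk j) hs (hlow j hj')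
  have hl : l = gln l.1.1 l.1.2 := by
    apply Subtype.ext
    apply Prod.ext
    · rfl
    · rw [gln_snd]
      have h2 := l.2
      funext j
      by_cases hj : j = l.1.1
      · rw [hj, update_self]; exact h2
      · rw [update_of_ne hj]
  rw [hl]
  exact main _ _ rfl _

/-- The point with parameter `s` of the line `v`. -/
noncomputable def Y (v : GrP k) (s : ℝ) : ℝ × (Fin k → Fin k → ℝ) :=
  (s, fun j a => if a = v j then s - ((j : ℕ) : ℝ) else 0)

omit [NeZero k] in
theorem Y_affine (v : GrP k) (s : ℝ) : Y v s = Y v 0 + s • (Y v 1 - Y v 0) := by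
  unfold Y
  ext j a
  · simp
  · simp only [Prod.snd_add, Prod.smul_snd, Prod.snd_sub, Pi.add_apply, Pi.smul_apply,
      Pi.sub_apply, smul_eq_mul]
    by_cases h : a = v j
    · simp only [h, if_true]; ring
    · simp only [h, if_false]; ring

omit [NeZero k] in
theorem Y_congr (v w : GrP k) (i : Fin k) (h : ∀ j, j ≠ i → v j = w j) :
    Y v ((i : ℕ) : ℝ) = Y w ((i : ℕ) : ℝ) := by
  unfold Y
  ext j a
  · rfl
  · simp only
    by_cases hj : j = i
    · subst hj; simp
    · rw [h j hj]

omit [NeZero k] in
theorem cast_ne {i j : Fin k} (h : i ≠ j) : ((i : ℕ) : ℝ) - ((j : ℕ) : ℝ) ≠ 0 := by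
  intro e
  have : ((i : ℕ) : ℝ) = ((j : ℕ) : ℝ) := by linarith
  exact h (Fin.ext (by exact_mod_cast this))

omit [NeZero k] in
theorem Y_inj {v w : GrP k} {i : Fin k} {s : ℝ} (h : Y v ((i : ℕ) : ℝ) = Y w s) :
    s = ((i : ℕ) : ℝ) ∧ ∀ j, j ≠ i → v j = w j := by
  have h1 : ((i : ℕ) : ℝ) = s := congrArg Prod.fst h
  refine ⟨h1.symm, fun j hj => ?_⟩
  have h2 := congrFun (congrFun (congrArg Prod.snd h) j) (v j)
  simp only [Y, if_true] at h2
  by_contra hne
  rw [if_neg hne] at h2
  exact cast_ne hj.symm h2

theorem dual_ext (v v' : GrP k) (h : ∀ l, dual (GrI k) l v ↔ dual (GrI k) l v') (hk : 2 ≤ k) :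
    v = v' := by
  funext j
  have h1 := (h (gln (oth hk j) v)).1 (dual_gln _ _)
  unfold dual at h1
  rw [GrI_gln] at h1
  exact (h1 j (oth_ne hk j).symm).symm

/-- The realization of the dual. -/
noncomputable def dualReal (hk : 2 ≤ k) :
    Realization (dual (GrI k)) (ℝ × (Fin k → Fin k → ℝ)) :=
  Realization.ofPair (fun l => Y l.1.2 ((l.1.1 : ℕ) : ℝ))
    (by
      intro l l' h
      obtain ⟨h1, h2⟩ := Y_inj h
      have h3 : l.1.1 = l'.1.1 := (Fin.ext (by exact_mod_cast h1)).symm
      apply Subtype.ext
      apply Prod.ext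
      · exact h3
      · funext j
        by_cases hj : j = l.1.1
        · rw [hj, l.2, h3, l'.2]
        · exact h2 j hj)
    (fun v => Y v 0) (fun v => Y v 1)
    (by
      intro v h
      have := congrArg Prod.fst h
      simp [Y] at this)
    (by
      intro l v
      rw [mem_line_iff]
      constructor
      · rintro ⟨c, hc⟩
        rw [← Y_affine] at hc
        obtain ⟨-, h2⟩ := Y_inj hc
        intro j hj
        exact (h2 j hj).symm
      · intro h
        refine ⟨((l.1.1 : ℕ) : ℝ), ?_⟩
        rw [← Y_affine]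
        exact Y_congr _ _ _ fun j hj => (h j hj).symm)
    (fun v v' h => dual_ext v v' h hk)

theorem dualReal_gln (hk : 2 ≤ k) (i : Fin k) (v : GrP k) :
    (dualReal hk).pt (gln i v) = Y v ((i : ℕ) : ℝ) := by
  change Y (update v i 0) ((i : ℕ) : ℝ) = Y v ((i : ℕ) : ℝ)
  exact Y_congr _ _ _ fun j hj => by rw [update_of_ne hj]

theorem dual_indep (hk : 2 ≤ k) : AffineIndependent ℝ fun x => (dualReal hk).pt (seed hk x) := by
  rw [affineIndependent_iff]
  intro s w hw0 hw
  have h1 := congrArg Prod.fst hw
  have h2 := congrArg Prod.snd hw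
  rw [Prod.fst_sum] at h1
  rw [Prod.snd_sum] at h2
  -- the coordinates of the seeds
  have c1 : ∀ x : {x : Fin k × Fin k // x.2 ≠ 0}, ∀ e : SI k, e ≠ Sum.inr x →
      ((dualReal hk).pt (seed hk e)).2 x.1.1 x.1.2 = 0 := by
    rintro ⟨⟨j, a⟩, ha⟩ e he
    simp only at ha ⊢
    rcases e with b | ⟨⟨j', a'⟩, ha'⟩
    · simp only [seed]
      rw [dualReal_gln]
      simp only [Y]
      rw [if_neg]
      exact ha
    · simp only [seed]
      rw [dualReal_gln]
      simp only [Y]
      rw [if_neg]
      intro hcon
      by_cases hj : j = j'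
      · subst hj
        rw [update_self] at hcon
        subst hcon
        exact he rfl
      · rw [update_of_ne hj] at hcon
        exact ha hcon
  have c2 : ∀ x : {x : Fin k × Fin k // x.2 ≠ 0},
      ((dualReal hk).pt (seed hk (Sum.inr x))).2 x.1.1 x.1.2 ≠ 0 := by
    rintro ⟨⟨j, a⟩, ha⟩
    simp only [seed]
    rw [dualReal_gln]
    simp only [Y, update_self, if_true]
    exact cast_ne (oth_ne hk j)
  have hr : ∀ x, Sum.inr x ∈ s → w (Sum.inr x) = 0 := by
    intro x hx
    have h3 := congrFun (congrFun h2 x.1.1) x.1.2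
    rw [Finset.sum_apply, Finset.sum_apply, Finset.sum_eq_single (Sum.inr x)] at h3
    · simp only [Prod.smul_snd, Pi.smul_apply, smul_eq_mul, Prod.snd_zero, Pi.zero_apply] at h3
      exact (mul_eq_zero.1 h3).resolve_right (c2 x)
    · intro e _ he
      simp only [Prod.smul_snd, Pi.smul_apply, smul_eq_mul]
      rw [c1 x e he, mul_zero]
    · intro h; exact absurd hx h
  have p0 : ((dualReal hk).pt (seed hk (Sum.inl 0))).1 = 0 := by
    simp only [seed, if_true]
    rw [dualReal_gln]
    simp [Y]
  have p1 : ((dualReal hk).pt (seed hk (Sum.inl 1))).1 = 1 := by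
    simp only [seed]
    rw [dualReal_gln]
    simp [Y, one']
  have hl1 : Sum.inl 1 ∈ s → w (Sum.inl 1) = 0 := by
    intro hx
    rw [Finset.sum_eq_single (Sum.inl 1)] at h1
    · simp only [Prod.smul_fst, smul_eq_mul, Prod.fst_zero, p1, mul_one] at h1
      exact h1
    · intro e hes he
      rcases e with b | x
      · have hb : b = 0 := by
          fin_cases b
          · rfl
          · exact absurd rfl he
        subst hb
        simp only [Prod.smul_fst, smul_eq_mul, p0, mul_zero]
      · rw [hr x hes, zero_smul]; rfl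
    · intro h; exact absurd hx h
  have hl0 : Sum.inl 0 ∈ s → w (Sum.inl 0) = 0 := by
    intro hx
    rw [Finset.sum_eq_single (Sum.inl 0)] at hw0
    · exact hw0
    · intro e hes he
      rcases e with b | x
      · have hb : b = 1 := by
          fin_cases b
          · exact absurd rfl he
          · rfl
        subst hb
        exact hl1 hes
      · exact hr x hes
    · intro h; exact absurd hx h
  intro e he
  rcases e with b | x
  · fin_cases b
    · exact hl0 he
    · exact hl1 he
  · exact hr x he

theorem dual_dim (hk : 2 ≤ k) : HasDim (dual (GrI k)) (k ^ 2 - k + 1) := by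
  have hub : ∀ {V : Type} [AddCommGroup V] [Module ℝ V] (R : Realization (dual (GrI k)) V),
      finrank ℝ (affineSpan ℝ (Set.range R.pt)).direction ≤ k ^ 2 - k + 1 := by
    intro V _ _ R
    exact finrank_le_of_seeds R (seed hk) card_SI (dual_seeds hk R)
  constructor
  · have h1 := mem_dimensions (dualReal (k := k) hk)
    have h2 : finrank ℝ (affineSpan ℝ (Set.range (dualReal (k := k) hk).pt)).direction =
        k ^ 2 - k + 1 := by
      refine le_antisymm (hub _) ?_
      exact le_finrank_of_indep (dualReal hk) (seed hk) card_SI (dual_indep hk)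
    rwa [h2] at h1
  · rintro d ⟨m, R, rfl⟩
    exact hub R

end Pool.Agent.Q227.DB
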