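import Pool.Agent.Q227.DB.Basic

namespace Pool.Agent.Q227.DB

open Module Function

/-! ### The grid configuration `[k]^k` -/

/-- points of the grid -/
abbrev GrP (k : ℕ) : Type := Fin k → Fin k

/-- lines of the grid: a direction `i` and a base point `w` with `w i = 0` -/
abbrev GrL (k : ℕ) [NeZero k] : Type := {x : Fin k × (Fin k → Fin k) // x.2 x.1 = 0}

/-- incidence -/
def GrI (k : ℕ) [NeZero k] (v : GrP k) (l : GrL k) : Prop := ∀ j, j ≠ l.1.1 → v j = l.1.2 j

variable {k : ℕ} [NeZero k]

/-- the line in direction `i` through `v` -/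
def gln (i : Fin k) (v : GrP k) : GrL k := ⟨(i, update v i 0), by simp⟩

theorem gln_fst (i : Fin k) (v : GrP k) : (gln i v).1.1 = i := rfl

theorem gln_snd (i : Fin k) (v : GrP k) : (gln i v).1.2 = update v i 0 := rfl

theorem GrI_gln (i : Fin k) (v w : GrP k) : GrI k v (gln i w) ↔ ∀ j, j ≠ i → v j = w j := by
  unfold GrI
  rw [gln_fst, gln_snd]
  refine forall₂_congr fun j hj => ?_
  rw [update_of_ne hj]

theorem GrI_iff (v : GrP k) (l : GrL k) : GrI k v l ↔ l = gln l.1.1 v := by
  constructor
  · intro h
    apply Subtype.ext
    apply Prod.ext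
    · rfl
    · rw [gln_snd]
      funext j
      by_cases hj : j = l.1.1
      · rw [hj, update_self]
        exact l.2
      · rw [update_of_ne hj]
        exact (h j hj).symm
  · intro h
    rw [h, GrI_gln]
    intro j _
    rfl

theorem gln_eq_gln {i i' : Fin k} {v v' : GrP k} (h : gln i v = gln i' v') :
    i = i' ∧ ∀ j, j ≠ i → v j = v' j := by
  have h1 : i = i' := congrArg (fun x => x.1.1) h
  subst h1
  refine ⟨rfl, ?_⟩
  have h2 : update v i 0 = update v' i 0 := congrArg (fun x => x.1.2) h
  intro j hj
  have := congrFun h2 j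
  rwa [update_of_ne hj, update_of_ne hj] at this

theorem gln_congr {i : Fin k} {v v' : GrP k} (h : ∀ j, j ≠ i → v j = v' j) : gln i v = gln i v' := by
  apply Subtype.ext
  apply Prod.ext
  · rfl
  · rw [gln_snd, gln_snd]
    funext j
    by_cases hj : j = i
    · rw [hj, update_self, update_self]
    · rw [update_of_ne hj, update_of_ne hj, h j hj]

theorem lines_through (v : GrP k) : {l | GrI k v l} = Set.range fun i => gln i v := by
  ext l
  simp only [Set.mem_ofPred_eq, Set.mem_range]
  rw [GrI_iff]
  constructor
  · intro h
    exact ⟨l.1.1, h.symm⟩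
  · rintro ⟨i, rfl⟩
    rfl

theorem points_on (l : GrL k) : {v | GrI k v l} = Set.range fun a => update l.1.2 l.1.1 a := by
  ext v
  simp only [Set.mem_ofPred_eq, Set.mem_range]
  constructor
  · intro h
    refine ⟨v l.1.1, ?_⟩
    funext j
    by_cases hj : j = l.1.1
    · rw [hj, update_self]
    · rw [update_of_ne hj]
      exact (h j hj).symm
  · rintro ⟨a, rfl⟩ j hj
    rw [update_of_ne hj]

theorem grid_configuration (hk : 2 ≤ k) : IsConfiguration (GrI k) k k where
  finite_points := inferInstance
  finite_lines := inferInstance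
  two_le_q := hk
  two_le_k := hk
  card_lines_through := by
    intro v
    rw [lines_through, ← Set.image_univ, Set.ncard_image_of_injective, Set.ncard_univ]
    · simp
    · intro i i' h
      exact (gln_eq_gln h).1
  card_points_on := by
    intro l
    rw [points_on, ← Set.image_univ, Set.ncard_image_of_injective, Set.ncard_univ]
    · simp
    · intro a b h
      have := congrFun h l.1.1
      simpa using this
  linear := by
    intro p p' l l' hne h1 h2 h3 h4
    rw [GrI_iff] at h1 h3
    have hi : l.1.1 = l'.1.1 := by
      by_contra hcon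
      apply hne
      funext j
      by_cases hj : j = l.1.1
      · have a1 := h4 j (by rw [hj]; exact hcon)
        rw [h3] at a1
        rw [a1, gln_snd, update_of_ne (by rw [hj]; exact hcon)]
      · have a1 := h2 j hj
        rw [h1] at a1
        rw [a1, gln_snd, update_of_ne hj]
    rw [h1, h3, hi]

theorem card_gln : Nat.card (GrL k) = k ^ k := by
  -- bijection with points? count through incidences: `k * |L| = k * |P|`
  have e : GrL k × Fin k ≃ Fin k × GrP k :=
    { toFun := fun x => (x.1.1.1, update x.1.1.2 x.1.1.1 x.2)
      invFun := fun y => (gln y.1 y.2, y.2 y.1)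
      left_inv := by
        rintro ⟨⟨⟨i, w⟩, hw⟩, a⟩
        simp only at hw
        apply Prod.ext
        · apply Subtype.ext
          apply Prod.ext
          · rfl
          · simp only [gln_snd]
            rw [update_idem, ← hw, update_eq_self]
        · simp
      right_inv := by
        rintro ⟨i, v⟩
        apply Prod.ext
        · rfl
        · simp only [gln_snd, gln_fst]
          rw [update_idem, update_eq_self] }
  have h := Nat.card_congr e
  rw [Nat.card_prod, Nat.card_prod] at h
  have h2 : Nat.card (GrP k) = k ^ k := by simp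
  rw [h2, Nat.card_eq_fintype_card (α := Fin k), Fintype.card_fin, mul_comm] at h
  exact Nat.eq_of_mul_eq_mul_left (Nat.pos_of_ne_zero (NeZero.ne k)) h

theorem grid_balanced (hk : 2 ≤ k) : IsBalanced (GrI k) k :=
  ⟨grid_configuration hk, by rw [card_gln]; simp⟩

/-! ### Dimension of the grid -/

/-- the second value -/
def one' (hk : 2 ≤ k) : Fin k := ⟨1, hk⟩

theorem one'_ne (hk : 2 ≤ k) : one' hk ≠ (0 : Fin k) := by
  intro h
  have := congrArg Fin.val h
  simp [one'] at this

/-- the vertex of the subcube `{0,1}^k` -/
def vert (hk : 2 ≤ k) (T : Finset (Fin k)) : GrP k := fun i => if i ∈ T then one' hk else 0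

variable {V : Type} [AddCommGroup V] [Module ℝ V]

theorem grid_seeds (hk : 2 ≤ k) (R : Realization (GrI k) V) (v : GrP k) :
    R.pt v ∈ affineSpan ℝ (Set.range fun T => R.pt (vert hk T)) := by
  set W := affineSpan ℝ (Set.range fun T => R.pt (vert hk T)) with hW
  -- induction on the number of coordinates not in `{0,1}`
  have main : ∀ n : ℕ, ∀ v : GrP k,
      (Finset.univ.filter fun i => v i ≠ 0 ∧ v i ≠ one' hk).card = n → R.pt v ∈ W := by
    intro n
    induction n with
    | zero =>
      intro v hv
      have h0 : v = vert hk (Finset.univ.filter fun i => v i = one' hk) := by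
        funext i
        unfold vert
        rw [Finset.card_eq_zero] at hv
        by_cases h1 : v i = one' hk
        · simp [h1]
        · simp only [Finset.mem_filter, Finset.mem_univ, true_and, h1, if_false]
          by_contra h2
          have : i ∈ (Finset.univ.filter fun i => v i ≠ 0 ∧ v i ≠ one' hk) := by
            simp [h1, h2]
          rw [hv] at this
          simp at this
      rw [h0]
      exact subset_affineSpan ℝ _ ⟨_, rfl⟩
    | succ n ih =>
      intro v hv
      obtain ⟨i, hi⟩ : (Finset.univ.filter fun i => v i ≠ 0 ∧ v i ≠ one' hk).Nonempty := by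
        rw [← Finset.card_pos]; omega
      have key : ∀ a : Fin k, (a = 0 ∨ a = one' hk) → R.pt (update v i a) ∈ W := by
        intro a ha
        apply ih
        have : (Finset.univ.filter fun j => (update v i a) j ≠ 0 ∧ (update v i a) j ≠ one' hk) =
            (Finset.univ.filter fun i => v i ≠ 0 ∧ v i ≠ one' hk).erase i := by
          ext j
          simp only [Finset.mem_filter, Finset.mem_univ, true_and, Finset.mem_erase]
          by_cases hj : j = i
          · subst hj
            rw [update_self]
            rcases ha with h | h <;> simp [h]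
          · rw [update_of_ne hj]
            simp [hj]
        rw [this, Finset.card_erase_of_mem hi, hv]
        rfl
      refine R.pt_mem (p := update v i 0) (p' := update v i (one' hk)) (l := gln i v) ?_ ?_ ?_
        (key _ (Or.inl rfl)) (key _ (Or.inr rfl)) ?_
      · intro h
        have := congrFun h i
        rw [update_self, update_self] at this
        exact one'_ne hk this.symm
      · rw [GrI_gln]; intro j hj; rw [update_of_ne hj]
      · rw [GrI_gln]; intro j hj; rw [update_of_ne hj]
      · rw [GrI_gln]; intro j hj; rfl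
  exact main _ v rfl

/-- The Segre realization of the grid. -/
noncomputable def segre (v : GrP k) : Finset (Fin k) → ℝ := fun S => ∏ i ∈ S, ((v i : ℕ) : ℝ)

omit [NeZero k] in
theorem segre_singleton (v : GrP k) (i : Fin k) : segre v {i} = ((v i : ℕ) : ℝ) := by
  simp [segre]

theorem segre_update (hk : 2 ≤ k) (v : GrP k) (i : Fin k) :
    segre v = segre (update v i 0) +
      ((v i : ℕ) : ℝ) • (segre (update v i (one' hk)) - segre (update v i 0)) := by
  funext S
  simp only [Pi.add_apply, Pi.smul_apply, Pi.sub_apply, smul_eq_mul]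
  unfold segre
  by_cases hi : i ∈ S
  · rw [← Finset.mul_prod_erase S _ hi, ← Finset.mul_prod_erase S (fun j => ((update v i 0 j : ℕ) : ℝ)) hi,
      ← Finset.mul_prod_erase S (fun j => ((update v i (one' hk) j : ℕ) : ℝ)) hi]
    have e1 : ∏ j ∈ S.erase i, ((update v i 0 j : ℕ) : ℝ) = ∏ j ∈ S.erase i, ((v j : ℕ) : ℝ) := by
      refine Finset.prod_congr rfl fun j hj => ?_
      rw [update_of_ne (Finset.ne_of_mem_erase hj)]
    have e2 : ∏ j ∈ S.erase i, ((update v i (one' hk) j : ℕ) : ℝ) =
        ∏ j ∈ S.erase i, ((v j : ℕ) : ℝ) := by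
      refine Finset.prod_congr rfl fun j hj => ?_
      rw [update_of_ne (Finset.ne_of_mem_erase hj)]
    rw [e1, e2]
    simp only [update_self]
    simp [one']
  · have e1 : ∏ j ∈ S, ((update v i 0 j : ℕ) : ℝ) = ∏ j ∈ S, ((v j : ℕ) : ℝ) := by
      refine Finset.prod_congr rfl fun j hj => ?_
      rw [update_of_ne]
      rintro rfl
      exact hi hj
    have e2 : ∏ j ∈ S, ((update v i (one' hk) j : ℕ) : ℝ) =
        ∏ j ∈ S, ((v j : ℕ) : ℝ) := by
      refine Finset.prod_congr rfl fun j hj => ?_
      rw [update_of_ne]
      rintro rfl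
      exact hi hj
    rw [e1, e2]
    ring

theorem mem_line_iff {a b x : V} : x ∈ line[ℝ, a, b] ↔ ∃ c : ℝ, x = a + c • (b - a) := by
  have h : x = (x - a) +ᵥ a := by simp
  rw [h, _root_.vadd_left_mem_affineSpan_pair]
  constructor
  · rintro ⟨r, hr⟩
    refine ⟨r, ?_⟩
    rw [vsub_eq_sub] at hr
    rw [hr, vadd_eq_add, add_comm]
  · rintro ⟨c, hc⟩
    refine ⟨c, ?_⟩
    rw [vadd_eq_add, add_comm] at hc
    rw [vsub_eq_sub]
    exact (add_left_cancel hc).symm

/-- distinct lines have distinct point sets -/
theorem line_ext (hk : 2 ≤ k) (l l' : GrL k) (h : ∀ v, GrI k v l ↔ GrI k v l') : l = l' := by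
  have h0 : GrI k (update l.1.2 l.1.1 0) l := by
    intro j hj; rw [update_of_ne hj]
  have h1 : GrI k (update l.1.2 l.1.1 (one' hk)) l := by
    intro j hj; rw [update_of_ne hj]
  refine (grid_configuration hk).linear _ _ _ _ ?_ h0 h1 ((h _).1 h0) ((h _).1 h1)
  intro e
  have := congrFun e l.1.1
  rw [update_self, update_self] at this
  exact one'_ne hk this.symm

/-- The Segre realization. -/
noncomputable def segreReal (hk : 2 ≤ k) : Realization (GrI k) (Finset (Fin k) → ℝ) :=
  Realization.ofPair segre
    (by
      intro v w h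
      funext i
      have := congrFun h {i}
      rw [segre_singleton, segre_singleton] at this
      exact Fin.ext (by exact_mod_cast this))
    (fun l => segre (update l.1.2 l.1.1 0)) (fun l => segre (update l.1.2 l.1.1 (one' hk)))
    (by
      intro l h
      have := congrFun h {l.1.1}
      rw [segre_singleton, segre_singleton, update_self, update_self] at this
      simp [one'] at this)
    (by
      intro v l
      rw [mem_line_iff]
      constructor
      · rintro ⟨c, hc⟩ j hj
        have := congrFun hc {j}
        simp only [Pi.add_apply, Pi.smul_apply, Pi.sub_apply, smul_eq_mul, segre_singleton,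
          update_of_ne hj, sub_self, mul_zero, add_zero] at this
        exact Fin.ext (by exact_mod_cast this)
      · intro h
        refine ⟨((v l.1.1 : ℕ) : ℝ), ?_⟩
        have e : ∀ a : Fin k, update l.1.2 l.1.1 a = update v l.1.1 a := by
          intro a
          funext j
          by_cases hj : j = l.1.1
          · rw [hj, update_self, update_self]
          · rw [update_of_ne hj, update_of_ne hj, h j hj]
        rw [e, e]
        exact segre_update hk v l.1.1)
    (line_ext hk)

theorem segre_vert (hk : 2 ≤ k) (T S : Finset (Fin k)) :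
    segre (vert hk T) S = if S ⊆ T then 1 else 0 := by
  unfold segre vert
  by_cases h : S ⊆ T
  · rw [if_pos h]
    refine Finset.prod_eq_one fun i hi => ?_
    rw [if_pos (h hi)]
    simp [one']
  · rw [if_neg h]
    obtain ⟨i, hi, hiT⟩ := Finset.not_subset.1 h
    refine Finset.prod_eq_zero hi ?_
    rw [if_neg hiT]
    simp

theorem segre_indep (hk : 2 ≤ k) :
    LinearIndependent ℝ fun T : Finset (Fin k) => segre (vert hk T) := by
  rw [Fintype.linearIndependent_iff]
  intro c hc
  by_contra hcon
  push Not at hcon
  obtain ⟨T₁, hT₁⟩ := hcon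
  obtain ⟨T, hT⟩ := Finset.exists_maximal
    (s := Finset.univ.filter fun T : Finset (Fin k) => c T ≠ 0) ⟨T₁, by simp [hT₁]⟩
  have hcT : c T ≠ 0 := (Finset.mem_filter.1 hT.1).2
  have h1 := congrFun hc T
  rw [Finset.sum_apply] at h1
  rw [Finset.sum_eq_single T] at h1
  · simp only [Pi.smul_apply, smul_eq_mul, segre_vert, Finset.Subset.refl, if_true, mul_one,
      Pi.zero_apply] at h1
    exact hcT h1
  · intro U _ hU
    simp only [Pi.smul_apply, smul_eq_mul, segre_vert]
    by_cases hTU : T ⊆ U
    · have : c U = 0 := by
        by_contra hcU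
        have := hT.2 (Finset.mem_filter.2 ⟨Finset.mem_univ U, hcU⟩) hTU
        exact hU (Finset.Subset.antisymm this hTU)
      rw [this, zero_mul]
    · rw [if_neg hTU, mul_zero]
  · intro h
    exact absurd (Finset.mem_univ T) h

theorem grid_dim (hk : 2 ≤ k) : HasDim (GrI k) (2 ^ k - 1) := by
  have hpos : 0 < 2 ^ k := by positivity
  have hcard : Fintype.card (Finset (Fin k)) = (2 ^ k - 1) + 1 := by
    rw [Fintype.card_finset, Fintype.card_fin]; omega
  have hub : ∀ {V : Type} [AddCommGroup V] [Module ℝ V] (R : Realization (GrI k) V),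
      finrank ℝ (affineSpan ℝ (Set.range R.pt)).direction ≤ 2 ^ k - 1 := by
    intro V _ _ R
    exact finrank_le_of_seeds R (vert hk) hcard (grid_seeds hk R)
  constructor
  · have h1 := mem_dimensions (segreReal (k := k) hk)
    have h2 : finrank ℝ (affineSpan ℝ (Set.range (segreReal (k := k) hk).pt)).direction =
        2 ^ k - 1 := by
      refine le_antisymm (hub _) ?_
      exact le_finrank_of_indep (segreReal hk) (vert hk) hcard (segre_indep hk).affineIndependent
    rwa [h2] at h1
  · rintro d ⟨m, R, rfl⟩
    exact hub R

end Pool.Agent.Q227.DB
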